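import Mathlib
import Pool.Agent.H119.LssKoszul

set_option autoImplicit false

/-!
# Persistence of complete intersections for hypergraph LSS ideals
-/

namespace Pool.Agent.Results.MP_3122b6_ag.PersistenceCI

open Finset MvPolynomial Matrix Pool.Agent.H119.LSS

variable (k : Type*) [Field k] {n : ℕ}

/-- The polynomial `f_A^{(d)} = ∑ j, ∏ i ∈ A, y_{i,j}` of an edge `A`. -/
noncomputable def edgePoly (d : ℕ) (A : Finset (Fin n)) : MvPolynomial (Fin n × Fin d) k :=
  ∑ j : Fin d, ∏ i ∈ A, X (i, j)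

/-- The Lovász–Saks–Schrijver ideal `L_H(d)` of the hypergraph with edge set `E`. -/
noncomputable def lss (E : Finset (Finset (Fin n))) (d : ℕ) :
    Ideal (MvPolynomial (Fin n × Fin d) k) :=
  Ideal.span {p | ∃ A ∈ E, p = edgePoly k d A}

/-- the exponent of `∏ i ∈ A, y_{i,j}` -/
noncomputable def mon {d : ℕ} (A : Finset (Fin n)) (j : Fin d) : (Fin n × Fin d) →₀ ℕ :=
  ∑ i ∈ A, Finsupp.single (i, j) 1

theorem mon_apply {d : ℕ} (A : Finset (Fin n)) (j : Fin d) (i' : Fin n) (j' : Fin d) :
    mon A j (i', j') = if i' ∈ A ∧ j' = j then 1 else 0 := by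
  classical
  rw [mon, Finsupp.finsetSum_apply]
  simp only [Finsupp.single_apply, Prod.mk.injEq]
  by_cases hj : j' = j
  · subst hj
    simp
  · have : ∀ x, ¬ (x = i' ∧ j = j') := fun x h => hj h.2.symm
    simp [this, hj]

theorem prod_X {d : ℕ} (A : Finset (Fin n)) (j : Fin d) :
    (∏ i ∈ A, X (i, j) : MvPolynomial (Fin n × Fin d) k) = monomial (mon A j) 1 := by
  rw [mon, monomial_sum_one]
  rfl

/-- the edge polynomials are minimal generators -/
theorem const_rel {d : ℕ} (hd : 1 ≤ d) (E : Finset (Finset (Fin n))) (hne : ∀ A ∈ E, A.Nonempty)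
    (hE : ∀ A ∈ E, ∀ B ∈ E, A ⊆ B → A = B)
    (a : {A // A ∈ E} → MvPolynomial (Fin n × Fin d) k)
    (ha : a ⬝ᵥ (fun A => edgePoly k d A.1) = 0) (B : {A // A ∈ E}) :
    constantCoeff (a B) = 0 := by
  classical
  let j0 : Fin d := ⟨0, hd⟩
  have h := congrArg (coeff (mon B.1 j0)) ha
  rw [dotProduct, coeff_sum, coeff_zero] at h
  have key : ∀ A : {A // A ∈ E}, coeff (mon B.1 j0) (a A * edgePoly k d A.1)
      = if A = B then constantCoeff (a B) else 0 := by
    intro A
    rw [edgePoly, Finset.mul_sum, coeff_sum]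
    simp only [prod_X, coeff_mul_monomial', mul_one]
    have hle : ∀ j : Fin d, mon A.1 j ≤ mon B.1 j0 → A = B ∧ j = j0 := by
      intro j hj
      have h1 : ∀ i ∈ A.1, i ∈ B.1 ∧ j = j0 := by
        intro i hi
        have := hj (i, j)
        rw [mon_apply, mon_apply, if_pos ⟨hi, rfl⟩] at this
        by_contra hcon
        rw [if_neg hcon] at this
        omega
      obtain ⟨i, hi⟩ := hne _ A.2
      exact ⟨Subtype.ext (hE _ A.2 _ B.2 fun i hi => (h1 i hi).1), (h1 i hi).2⟩
    by_cases hAB : A = B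
    · subst hAB
      rw [if_pos rfl, Finset.sum_eq_single j0]
      · rw [if_pos le_rfl, tsub_self]; rfl
      · intro j _ hj
        rw [if_neg fun h => hj (hle j h).2]
      · intro h; exact absurd (Finset.mem_univ _) h
    · rw [if_neg hAB]
      refine Finset.sum_eq_zero fun j _ => ?_
      rw [if_neg fun h => hAB (hle j h).1]
  rw [Finset.sum_congr rfl fun A _ => key A] at h
  simpa using h

/-- the edge polynomials with the variables `y_{i,d}`, `i ∈ Z`, of the last column set to `0` -/
noncomputable def part (d : ℕ) (Z A : Finset (Fin n)) : MvPolynomial (Fin n × Fin (d + 1)) k :=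
  ∑ j : Fin (d + 1), ∏ i ∈ A, if j = Fin.last d ∧ i ∈ Z then 0 else X (i, j)

theorem part_empty (d : ℕ) (A : Finset (Fin n)) : part k d ∅ A = edgePoly k (d + 1) A := by
  simp [part, edgePoly]

theorem part_hom (d : ℕ) (Z A : Finset (Fin n)) : (part k d Z A).IsHomogeneous A.card := by
  classical
  refine IsHomogeneous.sum _ _ _ fun j _ => ?_
  have : A.card = ∑ i ∈ A, 1 := by simp
  rw [this]
  refine IsHomogeneous.prod _ _ _ fun i _ => ?_
  split_ifs
  · exact isHomogeneous_zero _ _ _
  · exact isHomogeneous_X _ _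

theorem edge_hom (d : ℕ) (A : Finset (Fin n)) : (edgePoly k d A).IsHomogeneous A.card := by
  refine IsHomogeneous.sum _ _ _ fun j _ => ?_
  have : A.card = ∑ i ∈ A, 1 := by simp
  rw [this]
  exact IsHomogeneous.prod _ _ _ fun i _ => isHomogeneous_X _ _

theorem edge_const (d : ℕ) (A : Finset (Fin n)) (hA : A.Nonempty) :
    constantCoeff (edgePoly k d A) = 0 := by
  rw [edgePoly, map_sum]
  refine Finset.sum_eq_zero fun j _ => ?_
  rw [map_prod]
  obtain ⟨i, hi⟩ := hA
  exact Finset.prod_eq_zero hi (by simp)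

theorem kill_part (d : ℕ) (Z A : Finset (Fin n)) (s : Fin n) :
    kill (s, Fin.last d) (part k d Z A) = part k d (insert s Z) A := by
  classical
  rw [part, part, map_sum]
  refine Finset.sum_congr rfl fun j _ => ?_
  rw [map_prod]
  refine Finset.prod_congr rfl fun i _ => ?_
  by_cases h1 : j = Fin.last d
  · by_cases h2 : i ∈ Z
    · rw [if_pos ⟨h1, h2⟩, if_pos ⟨h1, Finset.mem_insert_of_mem h2⟩, map_zero]
    · rw [if_neg fun h => h2 h.2]
      by_cases h3 : i = s
      · rw [if_pos ⟨h1, by rw [h3]; exact Finset.mem_insert_self _ _⟩]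
        simp [kill, h1, h3]
      · rw [if_neg fun h => (Finset.mem_insert.1 h.2).elim h3 h2]
        simp [kill, h3]
  · rw [if_neg fun h => h1 h.1, if_neg fun h => h1 h.1]
    simp [kill, h1]

/-- the variables -/
noncomputable def varEquiv (n d : ℕ) : Fin n ⊕ (Fin n × Fin d) ≃ Fin n × Fin (d + 1) :=
  Equiv.ofBijective (Sum.elim (fun i => (i, Fin.last d)) (fun v => (v.1, v.2.castSucc))) (by
    constructor
    · rintro (i | ⟨i, j⟩) (i' | ⟨i', j'⟩) h
      · simp at h; rw [h]
      · simp only [Sum.elim_inl, Sum.elim_inr, Prod.mk.injEq] at h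
        exact absurd h.2.symm (Fin.castSucc_lt_last j').ne
      · simp only [Sum.elim_inl, Sum.elim_inr, Prod.mk.injEq] at h
        exact absurd h.2 (Fin.castSucc_lt_last j).ne
      · simp only [Sum.elim_inr, Prod.mk.injEq, Fin.castSucc_inj] at h
        rw [h.1, h.2]
    · rintro ⟨i, j⟩
      refine Fin.lastCases ?_ (fun j' => ?_) j
      · exact ⟨Sum.inl i, rfl⟩
      · exact ⟨Sum.inr (i, j'), rfl⟩)

/-- `S_d[z] ≅ S_{d+1}` -/
noncomputable def ringEquiv (n d : ℕ) :
    MvPolynomial (Fin n) (MvPolynomial (Fin n × Fin d) k) ≃+* MvPolynomial (Fin n × Fin (d + 1)) k :=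
  ((sumAlgEquiv k (Fin n) (Fin n × Fin d)).symm.trans (renameEquiv k (varEquiv n d))).toRingEquiv

theorem ringEquiv_edge (d : ℕ) (A : Finset (Fin n)) (hA : A.Nonempty) :
    ringEquiv k n d (C (edgePoly k d A)) = part k d univ A := by
  have h1 : ∀ v : Fin n × Fin d, ringEquiv k n d (C (X v)) = X (v.1, v.2.castSucc) := by
    intro v
    show (renameEquiv k (varEquiv n d)) ((sumAlgEquiv k (Fin n) (Fin n × Fin d)).symm (C (X v))) = _
    have : (sumAlgEquiv k (Fin n) (Fin n × Fin d)).symm (C (X v)) = X (Sum.inr v) :=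
      sumRingEquiv_symm_C_X k (Fin n) (Fin n × Fin d) v
    rw [this]
    simp only [renameEquiv_apply, rename_X]
    rfl
  rw [edgePoly, map_sum, map_sum, part, Fin.sum_univ_castSucc]
  have h2 : ∏ i ∈ A, (if Fin.last d = Fin.last d ∧ i ∈ (univ : Finset (Fin n)) then
      (0 : MvPolynomial (Fin n × Fin (d + 1)) k) else X (i, Fin.last d)) = 0 := by
    obtain ⟨i, hi⟩ := hA
    exact Finset.prod_eq_zero hi (by simp)
  rw [h2, add_zero]
  refine Finset.sum_congr rfl fun j _ => ?_
  rw [map_prod, map_prod]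
  refine Finset.prod_congr rfl fun i _ => ?_
  rw [h1, if_neg fun h => (Fin.castSucc_lt_last j).ne h.1]

theorem span_lss (E : Finset (Finset (Fin n))) (d : ℕ) :
    lss k E d = Ideal.span (Set.range fun A : {A // A ∈ E} => edgePoly k d A.1) := by
  rw [lss]
  congr 1
  ext p
  constructor
  · rintro ⟨A, hA, rfl⟩; exact ⟨⟨A, hA⟩, rfl⟩
  · rintro ⟨A, rfl⟩; exact ⟨A.1, A.2, rfl⟩

/-- the main step -/
theorem h1_succ {d : ℕ} (E : Finset (Finset (Fin n))) (hne : ∀ A ∈ E, A.Nonempty)
    (h : H1 (fun A : {A // A ∈ E} => edgePoly k d A.1)) :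
    H1 (fun A : {A // A ∈ E} => edgePoly k (d + 1) A.1) := by
  classical
  have h2 : H1 (fun A : {A // A ∈ E} => part k d univ A.1) := by
    have := (h.polynomial (τ := Fin n)).map_equiv (ringEquiv k n d)
    have e : (fun A : {A // A ∈ E} => ringEquiv k n d (C (edgePoly k d A.1)))
        = fun A : {A // A ∈ E} => part k d univ A.1 :=
      funext fun A => ringEquiv_edge k d A.1 (hne _ A.2)
    rwa [e] at this
  have h3 : ∀ Z : Finset (Fin n), H1 (fun A : {A // A ∈ E} => part k d Z A.1) →
      H1 (fun A : {A // A ∈ E} => part k d ∅ A.1) := by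
    intro Z
    induction Z using Finset.induction_on with
    | empty => exact id
    | insert s Z _ ih =>
      intro hZ
      refine ih (H1.lift (w := fun A => A.1.card) (fun A => part_hom k d Z A.1) (s, Fin.last d) ?_)
      simpa only [kill_part] using hZ
  simpa only [part_empty] using h3 _ h2

/-- the first elements of a list -/
theorem ofList_take {R : Type*} [CommRing R] (l : List R) (i : Fin l.length) :
    (Ideal.ofList (l.take i) • (⊤ : Submodule R R)) =
      Ideal.span ((fun j : Fin l.length => l.get j) '' {j | j < i}) := by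
  rw [smul_eq_mul, Ideal.mul_top, Ideal.ofList]
  congr 1
  ext x
  rw [Set.mem_ofPred_eq, List.mem_take_iff_getElem]
  constructor
  · rintro ⟨j, hj, rfl⟩
    have hj' := lt_min_iff.1 hj
    exact ⟨⟨j, hj'.2⟩, hj'.1, rfl⟩
  · rintro ⟨j, hj, rfl⟩
    exact ⟨j, lt_min_iff.2 ⟨hj, j.2⟩, rfl⟩

theorem regPart_iff {R : Type*} [CommRing R] (l : List R) :
    RingTheory.Sequence.IsWeaklyRegular R l ↔ RegPart (fun i : Fin l.length => l.get i) := by
  rw [RingTheory.Sequence.isWeaklyRegular_iff_Fin]
  refine forall_congr' fun i => ?_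
  rw [isSMulRegular_quotient_iff_mem_of_smul_mem, ofList_take]
  refine forall_congr' fun a => ?_
  rw [smul_eq_mul, mul_comm]
  rfl

theorem ofList_eq {R : Type*} [CommRing R] (l : List R) :
    Ideal.ofList l = Ideal.span (Set.range fun i : Fin l.length => l.get i) := by
  rw [Ideal.ofList]
  congr 1
  ext x
  rw [Set.mem_ofPred_eq, List.mem_iff_get]
  rfl

/-- An ideal is a complete intersection if it is generated by a regular sequence. -/
def IsCompleteIntersection {R : Type*} [CommRing R] (I : Ideal R) : Prop :=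
  ∃ l : List R, RingTheory.Sequence.IsRegular R l ∧ Ideal.ofList l = I

theorem h1_of_ci {d : ℕ} (hd : 1 ≤ d) (E : Finset (Finset (Fin n))) (hne : ∀ A ∈ E, A.Nonempty)
    (hE : ∀ A ∈ E, ∀ B ∈ E, A ⊆ B → A = B) (h : IsCompleteIntersection (lss k E d)) :
    H1 (fun A : {A // A ∈ E} => edgePoly k d A.1) := by
  obtain ⟨l, hl, hI⟩ := h
  have h1 : H1 (fun i : Fin l.length => l.get i) := ((regPart_iff l).1 hl.toIsWeaklyRegular).h1
  refine H1.minimal (w := fun A => A.1.card) (fun A => edge_hom k d A.1) h1 ?_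
    (const_rel k hd E hne hE)
  rw [← ofList_eq, hI, span_lss]

theorem ci_of_h1 {d : ℕ} (E : Finset (Finset (Fin n))) (hne : ∀ A ∈ E, A.Nonempty)
    (h : H1 (fun A : {A // A ∈ E} => edgePoly k d A.1)) : IsCompleteIntersection (lss k E d) := by
  classical
  let e := (Fintype.equivFin {A // A ∈ E}).symm
  let l : List (MvPolynomial (Fin n × Fin d) k) := List.ofFn fun i => edgePoly k d (e i).1
  have hlen : l.length = Fintype.card {A // A ∈ E} := List.length_ofFn
  let e' : Fin l.length ≃ {A // A ∈ E} := (finCongr hlen).trans e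
  have hget : (fun i : Fin l.length => l.get i) = fun i => edgePoly k d (e' i).1 := by
    funext i
    exact List.get_ofFn _ i
  have h1 : H1 (fun i : Fin l.length => l.get i) := by
    rw [hget]
    exact h.reindex e'
  have h2 : RegPart (fun i : Fin l.length => l.get i) := by
    refine h1.regPart (w := fun i => (e' i).1.card) (fun i => ?_) (fun i => ?_)
    · rw [congrFun hget i]; exact edge_hom k d _
    · rw [congrFun hget i]; exact edge_const k d _ (hne _ (e' i).2)
  have h3 : Ideal.ofList l = lss k E d := by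
    rw [ofList_eq, span_lss, hget]
    congr 1
    exact e'.surjective.range_comp (fun A : {A // A ∈ E} => edgePoly k d A.1)
  refine ⟨l, ⟨(regPart_iff l).2 h2, ?_⟩, h3⟩
  rw [smul_eq_mul, Ideal.mul_top, h3]
  intro htop
  have h4 : (1 : MvPolynomial (Fin n × Fin d) k) ∈ lss k E d := by rw [← htop]; trivial
  have h5 : lss k E d ≤ RingHom.ker (constantCoeff (σ := Fin n × Fin d) (R := k)) := by
    rw [lss, Ideal.span_le]
    rintro p ⟨A, hA, rfl⟩
    exact edge_const k d A (hne A hA)
  have h6 := h5 h4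
  rw [RingHom.mem_ker, map_one] at h6
  exact one_ne_zero h6

/-- **Q1 is true.**  Let `E` be a clutter of nonempty subsets of `{0, …, n - 1}`, `d ≥ 1` and `k` a
field.  If `L_H(d)` is a complete intersection, so is `L_H(d + 1)`. -/
theorem result (E : Finset (Finset (Fin n))) (hne : ∀ A ∈ E, A.Nonempty)
    (hE : ∀ A ∈ E, ∀ B ∈ E, A ⊆ B → A = B) (d : ℕ) (hd : 1 ≤ d)
    (h : IsCompleteIntersection (lss k E d)) : IsCompleteIntersection (lss k E (d + 1)) :=
  ci_of_h1 k E hne (h1_succ k E hne (h1_of_ci k hd E hne hE h))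

end Pool.Agent.Results.MP_3122b6_ag.PersistenceCI
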