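import Pool.Agent.Q271.LSS.Grad

/-!
# Hypergraph Lovász–Saks–Schrijver ideals: primeness persists in `d`
-/

set_option autoImplicit false

open MvPolynomial Pool.Agent.Q271.LSS

namespace Pool.Agent.Results.MP_3122b6_ag.PrimePersistence

variable (k : Type*) [Field k] {V : Type*} [DecidableEq V]

/-- `f_A^{(d)} = ∑_j ∏_{i ∈ A} y_{i,j}`. -/
noncomputable def edgePoly (d : ℕ) (A : Finset V) : MvPolynomial (V × Fin d) k :=
  ∑ j : Fin d, ∏ i ∈ A, X (i, j)

/-- The ideal `L_H(d)` generated by the `f_A^{(d)}`, `A ∈ E`. -/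
noncomputable def lss (d : ℕ) (E : Set (Finset V)) : Ideal (MvPolynomial (V × Fin d) k) :=
  Ideal.span (edgePoly k d '' E)

omit [DecidableEq V] in
/-- `E` is a clutter of nonempty sets. -/
def IsClutter (E : Set (Finset V)) : Prop :=
  (∀ A ∈ E, A.Nonempty) ∧ ∀ A ∈ E, ∀ B ∈ E, A ⊆ B → A = B

variable {k} {d : ℕ}

lemma edgePoly_isHomogeneous (A : Finset V) : (edgePoly k d A).IsHomogeneous A.card := by
  unfold edgePoly
  refine IsHomogeneous.sum _ _ _ fun j _ => ?_
  have := IsHomogeneous.prod A (fun i => (X (i, j) : MvPolynomial (V × Fin d) k)) (fun _ => 1)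
    (fun i _ => isHomogeneous_X k (i, j))
  simpa using this

lemma constantCoeff_edgePoly {A : Finset V} (hA : A.Nonempty) :
    constantCoeff (edgePoly k d A) = 0 := by
  obtain ⟨a, ha⟩ := hA
  unfold edgePoly
  rw [map_sum]
  refine Finset.sum_eq_zero fun j _ => ?_
  rw [map_prod]
  exact Finset.prod_eq_zero ha (by simp)

lemma lss_le_ker {R : Type*} [CommRing R] {E : Set (Finset V)}
    (φ : MvPolynomial (V × Fin d) k →+* R) (h : ∀ A ∈ E, φ (edgePoly k d A) = 0) :
    lss k d E ≤ RingHom.ker φ := by
  unfold lss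
  rw [Ideal.span_le]
  rintro _ ⟨A, hA, rfl⟩
  exact h A hA

/-- a point whose coordinates vanish outside of the vertex `v` -/
lemma edgePoly_single {E : Set (Finset V)} (p : V × Fin d → k) (v : V)
    (hp : ∀ i j, i ≠ v → p (i, j) = 0) {A : Finset V} (hA : A.Nonempty) (hv : A ≠ {v}) :
    eval p (edgePoly k d A) = 0 := by
  unfold edgePoly
  rw [map_sum]
  refine Finset.sum_eq_zero fun j _ => ?_
  rw [map_prod]
  obtain ⟨i, hi, hiv⟩ : ∃ i ∈ A, i ≠ v := by
    by_contra hcon
    push Not at hcon
    apply hv
    refine Finset.eq_singleton_iff_nonempty_unique_mem.2 ⟨hA, hcon⟩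
  exact Finset.prod_eq_zero hi (by simp [hp i j hiv])

section chain

variable {E : Set (Finset V)}

/-- splitting off the vertex `v` -/
lemma edgePoly_split {A : Finset V} {v : V} (hv : v ∈ A) :
    edgePoly k d A = ∑ j : Fin d, X (v, j) * ∏ i ∈ A.erase v, X (i, j) := by
  unfold edgePoly
  exact Finset.sum_congr rfl fun j _ => (Finset.mul_prod_erase A _ hv).symm

/-- The minor of the rows of a family of edges at `v` does not vanish modulo `L_H(d)`. -/
lemma det_notMem (hE : IsClutter E) (v : V) (E₂ : Finset (Finset V))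
    (h2 : ∀ A ∈ E₂, A ∈ E ∧ v ∈ A) (c : E₂ → Fin d) (hc : Function.Injective c) :
    (Matrix.of fun (A B : E₂) => ∏ i ∈ (A : Finset V).erase v,
      (X (i, c B) : MvPolynomial (V × Fin d) k)).det ∉ lss k d E := by
  classical
  set p : V × Fin d → k := fun x =>
    if ∃ B : E₂, c B = x.2 ∧ x.1 ∈ (B : Finset V).erase v then 1 else 0 with hp
  have hpv : ∀ i (B : E₂), p (i, c B) = if i ∈ (B : Finset V).erase v then 1 else 0 := by
    intro i B
    rw [hp]
    simp only
    congr 1
    apply propext
    constructor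
    · rintro ⟨B', h1, h2⟩
      rwa [← hc h1]
    · intro h
      exact ⟨B, rfl, h⟩
  have hker : lss k d E ≤ RingHom.ker (eval p) := by
    apply lss_le_ker
    intro A hA
    unfold edgePoly
    rw [map_sum]
    refine Finset.sum_eq_zero fun j _ => ?_
    rw [map_prod]
    by_contra hne
    have hne' : ∀ i ∈ A, p (i, j) ≠ 0 := by
      intro i hi h0
      exact hne (Finset.prod_eq_zero hi (by simp [h0]))
    obtain ⟨a, ha⟩ := hE.1 A hA
    have h3 := hne' a ha
    rw [hp] at h3
    simp only [ne_eq, ite_eq_right_iff, one_ne_zero, imp_false, not_not] at h3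
    obtain ⟨B, hB, -⟩ := h3
    have h4 : A ⊆ (B : Finset V).erase v := by
      intro i hi
      have h5 := hne' i hi
      rw [← hB, hpv] at h5
      by_contra hcon
      exact h5 (if_neg hcon)
    have h6 : A = B := hE.2 A hA B (h2 B B.2).1 (h4.trans (Finset.erase_subset _ _))
    have h7 : v ∈ A := by rw [h6]; exact (h2 B B.2).2
    exact (Finset.notMem_erase v _) (h4 h7)
  intro hmem
  have h8 := hker hmem
  rw [RingHom.mem_ker, RingHom.map_det] at h8
  have h9 : ((eval p).mapMatrix (Matrix.of fun (A B : E₂) => ∏ i ∈ (A : Finset V).erase v,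
      (X (i, c B) : MvPolynomial (V × Fin d) k))) = (1 : Matrix E₂ E₂ k) := by
    ext A B
    rw [RingHom.mapMatrix_apply, Matrix.map_apply, Matrix.of_apply, map_prod, Matrix.one_apply]
    split_ifs with hAB
    · subst hAB
      refine Finset.prod_eq_one fun i hi => ?_
      rw [eval_X, hpv, if_pos hi]
    · have h10 : ¬ ((A : Finset V).erase v ⊆ (B : Finset V).erase v) := by
        intro hsub
        apply hAB
        apply Subtype.ext
        refine hE.2 A (h2 A A.2).1 B (h2 B B.2).1 ?_
        intro i hi
        by_cases hiv : i = v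
        · rw [hiv]; exact (h2 B B.2).2
        · exact Finset.mem_of_mem_erase (hsub (Finset.mem_erase.2 ⟨hiv, hi⟩))
      obtain ⟨i, hi, hi'⟩ := Finset.not_subset.1 h10
      exact Finset.prod_eq_zero hi (by rw [eval_X, hpv, if_neg hi'])
  rw [h9, Matrix.det_one] at h8
  exact one_ne_zero h8

end chain

section frac

variable [Finite V] {E : Set (Finset V)} (hP : (lss k d E).IsPrime)

/-- number of edges at a vertex -/
lemma card_le (hE : IsClutter E) (hd : 1 ≤ d) (hP : (lss k d E).IsPrime) (v : V)
    (E₁ : Finset (Finset V)) (h1 : ∀ A, A ∈ E₁ ↔ A ∈ E ∧ v ∈ A) : E₁.card ≤ d := by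
  classical
  by_contra hcon
  push Not at hcon
  obtain ⟨E₂, h2, hcard⟩ := Finset.exists_subset_card_eq hcon.le
  have hc : Fintype.card E₂ = d := by rw [Fintype.card_coe, hcard]
  set c : E₂ ≃ Fin d := Fintype.equivFinOfCardEq hc
  have hdet := det_notMem (k := k) hE v E₂ (fun A hA => (h1 A).1 (h2 hA)) c c.injective
  set η : MvPolynomial (V × Fin d) k →+* (MvPolynomial (V × Fin d) k ⧸ lss k d E) :=
    Ideal.Quotient.mk (lss k d E) with hη
  have hker : ∀ x, η x = 0 ↔ x ∈ lss k d E := fun x => Ideal.Quotient.eq_zero_iff_mem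
  set M : Matrix E₂ E₂ (MvPolynomial (V × Fin d) k) :=
    Matrix.of fun (A B : E₂) => ∏ i ∈ (A : Finset V).erase v, X (i, c B) with hM
  have hdet2 : (η.mapMatrix M).det ≠ 0 := by
    rw [← RingHom.map_det]
    intro h
    exact hdet ((hker _).1 h)
  have : IsDomain (MvPolynomial (V × Fin d) k ⧸ lss k d E) :=
    (Ideal.Quotient.isDomain_iff_prime _).2 hP
  have hvec : (η.mapMatrix M).mulVec (fun B => η (X (v, c B))) = 0 := by
    ext A
    rw [Matrix.mulVec, dotProduct, Pi.zero_apply]
    have h3 : η (edgePoly k d (A : Finset V)) = 0 := by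
      rw [hker]
      exact Ideal.subset_span ⟨A, ((h1 A).1 (h2 A.2)).1, rfl⟩
    rw [edgePoly_split ((h1 A).1 (h2 A.2)).2, map_sum, ← Equiv.sum_comp c] at h3
    rw [← h3]
    refine Finset.sum_congr rfl fun B _ => ?_
    rw [RingHom.mapMatrix_apply, Matrix.map_apply, hM, Matrix.of_apply, map_mul, mul_comm]
  have hzero := Matrix.eq_zero_of_mulVec_eq_zero hdet2 hvec
  set j : Fin d := ⟨0, hd⟩
  have h4 : (X (v, j) : MvPolynomial (V × Fin d) k) ∈ lss k d E := by
    rw [← hker]
    have := congrFun hzero (c.symm j)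
    simpa using this
  have h5 : {v} ∉ E := by
    intro hv
    have h6 : E₁ ⊆ {{v}} := by
      intro A hA
      rw [Finset.mem_singleton]
      exact (hE.2 {v} hv A ((h1 A).1 hA).1 (by simpa using ((h1 A).1 hA).2)).symm
    have := Finset.card_le_card h6
    rw [Finset.card_singleton] at this
    omega
  have h6 : lss k d E ≤ RingHom.ker (eval fun x : V × Fin d => if x = (v, j) then (1 : k) else 0) := by
    apply lss_le_ker
    intro A hA
    refine edgePoly_single (E := E) _ v ?_ (hE.1 A hA) (fun h => h5 (h ▸ hA))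
    intro i j' hi
    rw [if_neg]
    intro h
    exact hi (congrArg Prod.fst h)
  have h7 := h6 h4
  rw [RingHom.mem_ker, eval_X, if_pos rfl] at h7
  exact one_ne_zero h7

/-- Removing an edge preserves primality. -/
theorem prime_erase (hE : IsClutter E) (hd : 1 ≤ d) (hP : (lss k d E).IsPrime) {A₀ : Finset V}
    (hA₀ : A₀ ∈ E) : (lss k d (E \ {A₀})).IsPrime := by
  classical
  obtain ⟨v, hv⟩ := hE.1 A₀ hA₀
  set E₁ : Finset (Finset V) := (Set.toFinite {A | A ∈ E ∧ v ∈ A}).toFinset with hE₁
  have h1 : ∀ A, A ∈ E₁ ↔ A ∈ E ∧ v ∈ A := fun A => by rw [hE₁]; simp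
  have hcard := card_le hE hd hP v E₁ h1
  have : IsDomain (MvPolynomial (V × Fin d) k ⧸ lss k d E) :=
    (Ideal.Quotient.isDomain_iff_prime _).2 hP
  set F := FractionRing (MvPolynomial (V × Fin d) k ⧸ lss k d E) with hF
  set η : MvPolynomial (V × Fin d) k →+* F :=
    (algebraMap (MvPolynomial (V × Fin d) k ⧸ lss k d E) F).comp
      (Ideal.Quotient.mk (lss k d E)) with hη
  have hker : ∀ x, η x = 0 ↔ x ∈ lss k d E := by
    intro x
    rw [hη, RingHom.comp_apply, IsFractionRing.to_map_eq_zero_iff, Ideal.Quotient.eq_zero_iff_mem]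
  have hηf : ∀ A ∈ E, η (edgePoly k d A) = 0 := fun A hA =>
    (hker _).2 (Ideal.subset_span ⟨A, hA, rfl⟩)
  obtain ⟨c⟩ : Nonempty (E₁ ↪ Fin d) := Function.Embedding.nonempty_of_card_le (by simpa using hcard)
  set M : Matrix E₁ E₁ (MvPolynomial (V × Fin d) k) :=
    Matrix.of fun (A B : E₁) => ∏ i ∈ (A : Finset V).erase v, X (i, c B) with hM
  have hdet : (η.mapMatrix M).det ≠ 0 := by
    rw [← RingHom.map_det]
    intro h
    exact det_notMem (k := k) hE v E₁ (fun A hA => (h1 A).1 hA) c c.injective ((hker _).1 h)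
  set a₀ : E₁ := ⟨A₀, (h1 A₀).2 ⟨hA₀, hv⟩⟩
  set w : E₁ → F := ((η.mapMatrix M)⁻¹).mulVec (Pi.single a₀ 1) with hw
  have hMw : (η.mapMatrix M).mulVec w = Pi.single a₀ 1 := by
    rw [hw, Matrix.mulVec_mulVec, Matrix.mul_nonsing_inv _ (isUnit_iff_ne_zero.2 hdet),
      Matrix.one_mulVec]
  set y : Fin d → F := Function.extend c w 0 with hy
  have hsum : ∀ A : E₁, ∑ j : Fin d, η (∏ i ∈ (A : Finset V).erase v, X (i, j)) * y j =
      (Pi.single a₀ (1 : F) : E₁ → F) A := by
    intro A
    rw [← hMw, Matrix.mulVec, dotProduct]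
    symm
    refine Fintype.sum_of_injective c c.injective _ _ ?_ ?_
    · intro j hj
      rw [hy, Function.extend_apply' _ _ _ (fun ⟨B, hB⟩ => hj ⟨B, hB⟩)]
      simp
    · intro B
      rw [hy, c.injective.extend_apply, RingHom.mapMatrix_apply, Matrix.map_apply, hM,
        Matrix.of_apply]
  set ψ : MvPolynomial (V × Fin d) k →+* Polynomial F :=
    eval₂Hom (Polynomial.C.comp (η.comp C)) (fun x =>
      if x.1 = v then Polynomial.C (η (X x)) + Polynomial.X * Polynomial.C (y x.2)
      else Polynomial.C (η (X x))) with hψ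
  have hψX : ∀ x : V × Fin d, ψ (X x) = if x.1 = v then
      Polynomial.C (η (X x)) + Polynomial.X * Polynomial.C (y x.2)
      else Polynomial.C (η (X x)) := by
    intro x; rw [hψ, coe_eval₂Hom, eval₂_X]
  have hψprod : ∀ (A : Finset V) (j : Fin d), v ∉ A → ψ (∏ i ∈ A, X (i, j)) =
      Polynomial.C (η (∏ i ∈ A, X (i, j))) := by
    intro A j hvA
    rw [map_prod, map_prod, map_prod]
    refine Finset.prod_congr rfl fun i hi => ?_
    rw [hψX, if_neg]
    rintro rfl
    exact hvA hi
  have hψ0 : ∀ x, (ψ x).eval 0 = η x := by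
    have h : (Polynomial.evalRingHom 0).comp ψ = η := by
      apply MvPolynomial.ringHom_ext
      · intro a
        rw [RingHom.comp_apply, hψ, coe_eval₂Hom, eval₂_C]
        simp
      · intro x
        rw [RingHom.comp_apply, hψX]
        split_ifs <;> simp
    intro x
    rw [← h]
    rfl
  have hψf : ∀ A : E₁, ψ (edgePoly k d (A : Finset V)) =
      Polynomial.X * Polynomial.C ((Pi.single a₀ (1 : F) : E₁ → F) A) := by
    intro A
    have hA := (h1 A).1 A.2
    have h3 := hηf A hA.1
    rw [edgePoly_split hA.2, map_sum] at h3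
    rw [edgePoly_split hA.2, map_sum, ← hsum A, map_sum, Finset.mul_sum]
    have h4 : ∀ j : Fin d, ψ (X (v, j) * ∏ i ∈ (A : Finset V).erase v, X (i, j)) =
        Polynomial.C (η (X (v, j) * ∏ i ∈ (A : Finset V).erase v, X (i, j))) +
        Polynomial.X * Polynomial.C (η (∏ i ∈ (A : Finset V).erase v, X (i, j)) * y j) := by
      intro j
      rw [map_mul, hψX, if_pos rfl, hψprod _ _ (Finset.notMem_erase v _), map_mul, map_mul, map_mul]
      ring
    rw [Finset.sum_congr rfl fun j _ => h4 j, Finset.sum_add_distrib, ← map_sum, h3]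
    simp
  have hψf' : ∀ A ∈ E, v ∉ A → ψ (edgePoly k d A) = 0 := by
    intro A hA hvA
    have h3 := hηf A hA
    unfold edgePoly at h3 ⊢
    rw [map_sum, Finset.sum_congr rfl fun j _ => hψprod A j hvA, ← map_sum, ← map_sum, h3, map_zero]
  have hJQ : lss k d (E \ {A₀}) ≤ RingHom.ker ψ := by
    apply lss_le_ker
    rintro A ⟨hA, hne⟩
    by_cases hvA : v ∈ A
    · have h5 := hψf ⟨A, (h1 A).2 ⟨hA, hvA⟩⟩
      rw [h5, Pi.single_eq_of_ne, map_zero, mul_zero]
      intro h
      exact hne (congrArg Subtype.val h)
    · exact hψf' A hA hvA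
  have hQP : RingHom.ker ψ ≤ lss k d E := by
    intro x hx
    rw [← hker, ← hψ0, (RingHom.mem_ker).1 hx, Polynomial.eval_zero]
  have hf : edgePoly k d A₀ ∉ RingHom.ker ψ := by
    intro h
    rw [RingHom.mem_ker] at h
    have h5 := hψf a₀
    rw [Pi.single_eq_same] at h5
    have h6 : (Polynomial.X : Polynomial F) * Polynomial.C 1 = 0 := by
      rw [← h5]; exact h
    simp at h6
  have hQprime : (RingHom.ker ψ).IsPrime := RingHom.ker_isPrime ψ
  have hPsup : lss k d E = lss k d (E \ {A₀}) ⊔ Ideal.span {edgePoly k d A₀} := by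
    unfold lss
    rw [← Ideal.span_union, ← Set.image_singleton, ← Set.image_union]
    congr 2
    rw [Set.diff_union_self]
    exact (Set.union_eq_left.2 (by simpa using hA₀)).symm
  obtain ⟨r, hr1, hr2⟩ := nakayama (J := lss k d (E \ {A₀})) (Q := RingHom.ker ψ)
    (f := edgePoly k d A₀) (by
      intro q hq
      have h5 := hQP hq
      rw [hPsup] at h5
      obtain ⟨b, hb, u, hu, rfl⟩ := Submodule.mem_sup.1 h5
      obtain ⟨c', rfl⟩ := Ideal.mem_span_singleton'.1 hu
      refine ⟨b, hb, c', ?_, by ring⟩
      have h6 : c' * edgePoly k d A₀ ∈ RingHom.ker ψ := by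
        have := (RingHom.ker ψ).sub_mem hq (hJQ hb)
        simpa using this
      rcases hQprime.mem_or_mem h6 with h | h
      · exact h
      · exact absurd h hf)
  have hQJ : RingHom.ker ψ ≤ lss k d (E \ {A₀}) := by
    intro q hq
    unfold lss
    refine mem_of_mul_mem ?_ (r := r) ?_ (hr2 q hq)
    · rintro _ ⟨A, _, rfl⟩
      exact ⟨_, edgePoly_isHomogeneous A⟩
    · obtain ⟨u, hu⟩ := Ideal.mem_span_singleton'.1 hr1
      have : r = 1 + u * edgePoly k d A₀ := by rw [hu]; ring
      rw [this, map_add, map_mul, constantCoeff_edgePoly (hE.1 A₀ hA₀)]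
      simp
  rw [le_antisymm hJQ hQJ]
  exact hQprime

/-- All subfamilies are prime. -/
theorem prime_subset (hE : IsClutter E) (hd : 1 ≤ d) (hP : (lss k d E).IsPrime)
    {E' : Set (Finset V)} (hE' : E' ⊆ E) : (lss k d E').IsPrime := by
  classical
  have key : ∀ W : Finset (Finset V), (lss k d (E \ (W : Set (Finset V)))).IsPrime := by
    intro W
    induction W using Finset.induction_on with
    | empty => simpa using hP
    | insert A W hA ih =>
      by_cases hAE : A ∈ E
      · have h1 : E \ ((insert A W : Finset (Finset V)) : Set (Finset V)) =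
            (E \ (W : Set (Finset V))) \ {A} := by
          ext B
          simp only [Finset.coe_insert, Set.mem_sdiff, Set.mem_insert_iff, Set.mem_singleton_iff,
            not_or, Finset.mem_coe]
          tauto
        rw [h1]
        refine prime_erase ⟨fun B hB => hE.1 B hB.1, fun B hB C hC => hE.2 B hB.1 C hC.1⟩ hd ih ?_
        exact ⟨hAE, by simpa using hA⟩
      · have h1 : E \ ((insert A W : Finset (Finset V)) : Set (Finset V)) =
            (E \ (W : Set (Finset V))) := by
          ext B
          simp only [Finset.coe_insert, Set.mem_sdiff, Set.mem_insert_iff, not_or, Finset.mem_coe]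
          constructor
          · rintro ⟨a, b, c⟩; exact ⟨a, c⟩
          · rintro ⟨a, b⟩
            exact ⟨a, fun h => hAE (h ▸ a), b⟩
        rw [h1]
        exact ih
  have h := key (Set.toFinite (E \ E')).toFinset
  rwa [Set.Finite.coe_toFinset, Set.diff_diff_cancel_left hE'] at h

end frac

section lift

/-- the variables of the last column at the vertices of `Z`, and the generators -/
def gens (k : Type*) [Field k] {V : Type*} (d : ℕ) (Z : Set V) (E : Set (Finset V)) :
    Set (MvPolynomial (V × Fin (d + 1)) k) :=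
  (fun v => X (v, Fin.last d)) '' Z ∪ edgePoly k (d + 1) '' E

lemma gens_homogeneous (Z : Set V) (E : Set (Finset V)) :
    ∀ g ∈ gens k d Z E, ∃ n, g.IsHomogeneous n := by
  rintro _ (⟨v, _, rfl⟩ | ⟨A, _, rfl⟩)
  · exact ⟨1, isHomogeneous_X _ _⟩
  · exact ⟨_, edgePoly_isHomogeneous A⟩

lemma gens_insert_left (v : V) (Z : Set V) (E : Set (Finset V)) :
    Ideal.span (gens k d (insert v Z) E) =
      Ideal.span (gens k d Z E) ⊔ Ideal.span {X (v, Fin.last d)} := by
  rw [← Ideal.span_union]
  congr 1
  unfold gens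
  rw [Set.image_insert_eq]
  ext x
  simp only [Set.mem_union, Set.mem_insert_iff, Set.mem_singleton_iff]
  tauto

lemma gens_insert_right (A : Finset V) (Z : Set V) (E : Set (Finset V)) :
    Ideal.span (gens k d Z (insert A E)) =
      Ideal.span (gens k d Z E) ⊔ Ideal.span {edgePoly k (d + 1) A} := by
  rw [← Ideal.span_union]
  congr 1
  unfold gens
  rw [Set.image_insert_eq]
  ext x
  simp only [Set.mem_union, Set.mem_insert_iff, Set.mem_singleton_iff]
  tauto

lemma gens_le_ker {R : Type*} [CommRing R] {Z : Set V} {E : Set (Finset V)}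
    (φ : MvPolynomial (V × Fin (d + 1)) k →+* R) (h0 : ∀ v ∈ Z, φ (X (v, Fin.last d)) = 0)
    (h : ∀ A ∈ E, φ (edgePoly k (d + 1) A) = 0) :
    Ideal.span (gens k d Z E) ≤ RingHom.ker φ := by
  rw [Ideal.span_le]
  rintro _ (⟨v, hv, rfl⟩ | ⟨A, hA, rfl⟩)
  · exact h0 v hv
  · exact h A hA

/-- setting the last column to zero -/
noncomputable def piH (k : Type*) [Field k] {V : Type*} (d : ℕ) :
    MvPolynomial (V × Fin (d + 1)) k →+* MvPolynomial (V × Fin d) k :=
  eval₂Hom C (fun x => Fin.lastCases (motive := fun _ => MvPolynomial (V × Fin d) k) 0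
    (fun j => X (x.1, j)) x.2)

/-- the inclusion -/
noncomputable def iotaH (k : Type*) [Field k] {V : Type*} (d : ℕ) :
    MvPolynomial (V × Fin d) k →+* MvPolynomial (V × Fin (d + 1)) k :=
  eval₂Hom C (fun x => X (x.1, Fin.castSucc x.2))

lemma piH_last (v : V) : piH k d (X (v, Fin.last d)) = 0 := by simp [piH]

lemma piH_castSucc (v : V) (j : Fin d) : piH k d (X (v, Fin.castSucc j)) = X (v, j) := by
  simp [piH]

lemma piH_C (a : k) : piH k d (C a : MvPolynomial (V × Fin (d + 1)) k) = C a := by simp [piH]

lemma iotaH_X (v : V) (j : Fin d) : iotaH k d (X (v, j)) = X (v, Fin.castSucc j) := by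
  simp [iotaH]

lemma iotaH_C (a : k) : iotaH k d (C a : MvPolynomial (V × Fin d) k) = C a := by simp [iotaH]

lemma piH_edgePoly {A : Finset V} (hA : A.Nonempty) :
    piH k d (edgePoly k (d + 1) A) = edgePoly k d A := by
  unfold edgePoly
  rw [map_sum, Fin.sum_univ_castSucc]
  obtain ⟨a, ha⟩ := hA
  rw [map_prod, Finset.prod_eq_zero ha (piH_last a), add_zero]
  refine Finset.sum_congr rfl fun j _ => ?_
  rw [map_prod]
  exact Finset.prod_congr rfl fun i _ => piH_castSucc i j

lemma iotaH_edgePoly (A : Finset V) :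
    edgePoly k (d + 1) A = iotaH k d (edgePoly k d A) + ∏ i ∈ A, X (i, Fin.last d) := by
  unfold edgePoly
  rw [map_sum, Fin.sum_univ_castSucc]
  congr 1
  refine Finset.sum_congr rfl fun j _ => ?_
  rw [map_prod]
  exact Finset.prod_congr rfl fun i _ => (iotaH_X i j).symm

variable {E : Set (Finset V)}

lemma prime_univ (hE : ∀ A ∈ E, A.Nonempty) (hP : (lss k d E).IsPrime) :
    (Ideal.span (gens k d (Set.univ : Set V) E)).IsPrime := by
  have h : Ideal.span (gens k d (Set.univ : Set V) E) = (lss k d E).comap (piH k d) := by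
    apply le_antisymm
    · rw [Ideal.span_le]
      rintro _ (⟨v, hv, rfl⟩ | ⟨A, hA, rfl⟩)
      · rw [SetLike.mem_coe, Ideal.mem_comap, piH_last]
        exact Ideal.zero_mem _
      · rw [SetLike.mem_coe, Ideal.mem_comap, piH_edgePoly (hE A hA)]
        exact Ideal.subset_span ⟨A, hA, rfl⟩
    · intro t ht
      rw [Ideal.mem_comap] at ht
      set B := Ideal.span (gens k d (Set.univ : Set V) E) with hB
      have hX : ∀ v : V, (X (v, Fin.last d) : MvPolynomial (V × Fin (d + 1)) k) ∈ B := fun v =>
        Ideal.subset_span (Or.inl ⟨v, trivial, rfl⟩)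
      have h1 : (Ideal.Quotient.mk B).comp ((iotaH k d).comp (piH k d)) =
          Ideal.Quotient.mk B := by
        apply MvPolynomial.ringHom_ext
        · intro a
          rw [RingHom.comp_apply, RingHom.comp_apply, piH_C, iotaH_C]
        · rintro ⟨v, j⟩
          rw [RingHom.comp_apply, RingHom.comp_apply]
          refine Fin.lastCases ?_ (fun j => ?_) j
          · rw [piH_last, map_zero, map_zero]
            exact (Ideal.Quotient.eq_zero_iff_mem.2 (hX v)).symm
          · rw [piH_castSucc, iotaH_X]
      have h2 : lss k d E ≤ B.comap (iotaH k d) := by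
        unfold lss
        rw [Ideal.span_le]
        rintro _ ⟨A, hA, rfl⟩
        rw [SetLike.mem_coe, Ideal.mem_comap]
        have h3 : edgePoly k (d + 1) A ∈ B := Ideal.subset_span (Or.inr ⟨A, hA, rfl⟩)
        obtain ⟨a, ha⟩ := hE A hA
        have h4 : (∏ i ∈ A, X (i, Fin.last d) : MvPolynomial (V × Fin (d + 1)) k) ∈ B := by
          rw [← Finset.mul_prod_erase A _ ha]
          exact B.mul_mem_right _ (hX a)
        have h5 := B.sub_mem h3 h4
        rwa [iotaH_edgePoly, add_sub_cancel_right] at h5
      have h3 := h2 ht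
      rw [Ideal.mem_comap] at h3
      have h4 := congrArg (fun f => f t) h1
      simp only [RingHom.comp_apply] at h4
      rw [Ideal.Quotient.eq_zero_iff_mem.2 h3] at h4
      exact Ideal.Quotient.eq_zero_iff_mem.1 h4.symm
  rw [h]
  exact Ideal.IsPrime.comap (piH k d)

lemma prime_vars (Z : Set V) : (Ideal.span (gens k d Z (∅ : Set (Finset V)))).IsPrime := by
  classical
  set κ : MvPolynomial (V × Fin (d + 1)) k →+* MvPolynomial (V × Fin (d + 1)) k :=
    eval₂Hom C (fun x => if x.2 = Fin.last d ∧ x.1 ∈ Z then 0 else X x) with hκ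
  have hκX : ∀ x, κ (X x) = if x.2 = Fin.last d ∧ x.1 ∈ Z then 0 else X x := by
    intro x; rw [hκ, coe_eval₂Hom, eval₂_X]
  have h : Ideal.span (gens k d Z (∅ : Set (Finset V))) = RingHom.ker κ := by
    apply le_antisymm
    · apply gens_le_ker
      · intro v hv
        rw [hκX, if_pos ⟨rfl, hv⟩]
      · intro A hA; exact absurd hA (Set.notMem_empty A)
    · intro t ht
      rw [RingHom.mem_ker] at ht
      set B := Ideal.span (gens k d Z (∅ : Set (Finset V))) with hB
      have h1 : (Ideal.Quotient.mk B).comp κ = Ideal.Quotient.mk B := by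
        apply MvPolynomial.ringHom_ext
        · intro a
          rw [RingHom.comp_apply, hκ, coe_eval₂Hom, eval₂_C]
        · intro x
          rw [RingHom.comp_apply, hκX]
          split_ifs with hx
          · rw [map_zero]
            have hxB : (X x : MvPolynomial (V × Fin (d + 1)) k) ∈ B := by
              refine Ideal.subset_span (Or.inl ⟨x.1, hx.2, ?_⟩)
              simp only
              rw [← hx.1]
            exact (Ideal.Quotient.eq_zero_iff_mem.2 hxB).symm
          · rfl
      have h4 := congrArg (fun f => f t) h1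
      simp only [RingHom.comp_apply] at h4
      rw [ht, map_zero] at h4
      exact Ideal.Quotient.eq_zero_iff_mem.1 h4.symm
  rw [h]
  exact RingHom.ker_isPrime κ

lemma edgePoly_notMem (hE : IsClutter E) (hd : 1 ≤ d) (Z : Set V) {A : Finset V} (hA : A ∈ E)
    {W : Set (Finset V)} (hW : W ⊆ E) (hAW : A ∉ W) :
    edgePoly k (d + 1) A ∉ Ideal.span (gens k d Z W) := by
  classical
  set p : V × Fin (d + 1) → k := fun x => if x.2 = 0 ∧ x.1 ∈ A then 1 else 0 with hp
  have h0 : (Fin.last d) ≠ (0 : Fin (d + 1)) := by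
    intro h
    have := congrArg Fin.val h
    simp at this
    omega
  have hev : ∀ B : Finset V, B.Nonempty → eval p (edgePoly k (d + 1) B) =
      if B ⊆ A then 1 else 0 := by
    intro B hB
    unfold edgePoly
    rw [map_sum, Finset.sum_eq_single (0 : Fin (d + 1))]
    · rw [map_prod]
      split_ifs with hBA
      · refine Finset.prod_eq_one fun i hi => ?_
        rw [eval_X, hp]
        simp [hBA hi]
      · obtain ⟨i, hi, hi'⟩ := Finset.not_subset.1 hBA
        refine Finset.prod_eq_zero hi ?_
        rw [eval_X, hp]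
        simp [hi']
    · intro j _ hj
      obtain ⟨b, hb⟩ := hB
      rw [map_prod]
      refine Finset.prod_eq_zero hb ?_
      rw [eval_X, hp]
      simp [hj]
    · intro h
      exact absurd (Finset.mem_univ _) h
  have hker : Ideal.span (gens k d Z W) ≤ RingHom.ker (eval p) := by
    apply gens_le_ker
    · intro v _
      rw [eval_X, hp]
      simp [h0]
    · intro B hB
      rw [hev B (hE.1 B (hW hB)), if_neg]
      intro hBA
      exact hAW ((hE.2 B (hW hB) A hA hBA) ▸ hB)
  intro hmem
  have h1 := hker hmem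
  rw [RingHom.mem_ker, hev A (hE.1 A hA), if_pos (Finset.Subset.refl A)] at h1
  exact one_ne_zero h1

lemma X_notMem (hE : IsClutter E) (hd : 1 ≤ d) {Z : Set V} {v : V} (hv : v ∉ Z)
    {W : Set (Finset V)} (hW : W ⊆ E) :
    (X (v, Fin.last d) : MvPolynomial (V × Fin (d + 1)) k) ∉ Ideal.span (gens k d Z W) := by
  classical
  have h0 : (0 : Fin (d + 1)) ≠ Fin.last d := by
    intro h
    have := congrArg Fin.val h
    simp at this
    omega
  set p : V × Fin (d + 1) → k := fun x =>
    if x.1 = v then (if x.2 = Fin.last d then 1 else if x.2 = 0 then -1 else 0) else 0 with hp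
  have hker : Ideal.span (gens k d Z W) ≤ RingHom.ker (eval p) := by
    apply gens_le_ker
    · intro u hu
      rw [eval_X, hp]
      have : u ≠ v := fun h => hv (h ▸ hu)
      simp [this]
    · intro B hB
      by_cases hBv : B = {v}
      · subst hBv
        unfold edgePoly
        rw [map_sum]
        have h1 : ∀ j : Fin (d + 1), eval p (∏ i ∈ ({v} : Finset V), X (i, j)) =
            (if j = Fin.last d then 1 else 0) + (if j = 0 then -1 else 0) := by
          intro j
          rw [Finset.prod_singleton, eval_X, hp]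
          simp only [if_true]
          by_cases hj : j = Fin.last d
          · subst hj
            simp [h0.symm]
          · simp [hj]
        rw [Finset.sum_congr rfl fun j _ => h1 j, Finset.sum_add_distrib]
        simp
      · refine edgePoly_single (E := E) p v ?_ (hE.1 B (hW hB)) hBv
        intro i j hi
        rw [hp]
        simp [hi]
  intro hmem
  have h1 := hker hmem
  rw [RingHom.mem_ker, eval_X, hp] at h1
  simp at h1

variable [Finite V]

lemma step (hE : IsClutter E) (hd : 1 ≤ d) {Z : Set V} {v : V} (hv : v ∉ Z)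
    (hP : ∀ E' ⊆ E, (Ideal.span (gens k d (insert v Z) E')).IsPrime) :
    ∀ W : Finset (Finset V), (W : Set (Finset V)) ⊆ E →
      (Ideal.span (gens k d Z (W : Set (Finset V)))).IsPrime := by
  classical
  intro W
  induction W using Finset.induction_on with
  | empty =>
    intro _
    rw [Finset.coe_empty]
    exact prime_vars Z
  | insert A W hAW ih =>
    intro hW
    rw [Finset.coe_insert] at hW ⊢
    have hWE : (W : Set (Finset V)) ⊆ E := fun B hB => hW (Or.inr hB)
    have hAE : A ∈ E := hW (Or.inl rfl)
    have h1 := ih hWE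
    have h2 := hP _ hW
    rw [gens_insert_left] at h2
    have h3 := hP _ hWE
    refine isPrime_of_sup (z := X (v, Fin.last d)) ?_ ?_ h2
    · intro r q hr hrq
      refine mem_of_mul_mem (gens_homogeneous Z _) ?_ hrq
      obtain ⟨u, hu⟩ := Ideal.mem_span_singleton'.1 hr
      have : r = 1 + u * X (v, Fin.last d) := by rw [hu]; ring
      rw [this, map_add, map_mul, constantCoeff_X]
      simp
    · intro x hx
      rw [gens_insert_right] at hx ⊢
      obtain ⟨i, hi, u, hu, hiu⟩ := Submodule.mem_sup.1 hx
      obtain ⟨w, rfl⟩ := Ideal.mem_span_singleton'.1 hu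
      have h4 : w * edgePoly k (d + 1) A ∈ Ideal.span (gens k d (insert v Z) (W : Set (Finset V))) := by
        rw [gens_insert_left]
        have h5 : w * edgePoly k (d + 1) A = X (v, Fin.last d) * x - i := by rw [← hiu]; ring
        rw [h5]
        exact Ideal.sub_mem _
          (Ideal.mem_sup_right (Ideal.mul_mem_right _ _ (Ideal.mem_span_singleton_self _)))
          (Ideal.mem_sup_left hi)
      have h5 := (h3.mem_or_mem h4).resolve_right (edgePoly_notMem hE hd _ hAE hWE (by simpa using hAW))
      rw [gens_insert_left] at h5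
      obtain ⟨i', hi', u', hu', hiu'⟩ := Submodule.mem_sup.1 h5
      obtain ⟨w', rfl⟩ := Ideal.mem_span_singleton'.1 hu'
      have h6 : X (v, Fin.last d) * (x - edgePoly k (d + 1) A * w') ∈
          Ideal.span (gens k d Z (W : Set (Finset V))) := by
        have h7 : X (v, Fin.last d) * (x - edgePoly k (d + 1) A * w') =
            i + edgePoly k (d + 1) A * i' := by
          have h8 : X (v, Fin.last d) * x = i + (i' + w' * X (v, Fin.last d)) * edgePoly k (d + 1) A := by
            rw [hiu', hiu]
          linear_combination h8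
        rw [h7]
        exact Ideal.add_mem _ hi (Ideal.mul_mem_left _ _ hi')
      have h7 := (h1.mem_or_mem h6).resolve_left (X_notMem hE hd hv hWE)
      have h8 : x = (x - edgePoly k (d + 1) A * w') + w' * edgePoly k (d + 1) A := by ring
      rw [h8]
      exact Ideal.add_mem _ (Ideal.mem_sup_left h7)
        (Ideal.mem_sup_right (Ideal.mul_mem_left _ _ (Ideal.mem_span_singleton_self _)))

/-- Primality persists. -/
theorem prime_succ (hE : IsClutter E) (hd : 1 ≤ d) (hP : (lss k d E).IsPrime) :
    (lss k (d + 1) E).IsPrime := by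
  classical
  have : Fintype V := Fintype.ofFinite V
  have key : ∀ W : Finset V, ∀ E' ⊆ E,
      (Ideal.span (gens k d (Set.univ \ (W : Set V)) E')).IsPrime := by
    intro W
    induction W using Finset.induction_on with
    | empty =>
      intro E' hE'
      have h := prime_univ (k := k) (d := d) (fun A hA => hE.1 A (hE' hA)) (prime_subset hE hd hP hE')
      simpa using h
    | insert v W hv ih =>
      intro E' hE'
      have h1 : (Set.univ : Set V) \ (W : Set V) =
          insert v (Set.univ \ ((insert v W : Finset V) : Set V)) := by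
        ext x
        simp only [Finset.coe_insert, Set.mem_sdiff, Set.mem_univ, true_and, Set.mem_insert_iff,
          not_or, Finset.mem_coe]
        constructor
        · intro hx
          by_cases hxv : x = v
          · exact Or.inl hxv
          · exact Or.inr ⟨hxv, hx⟩
        · rintro (rfl | h)
          · exact hv
          · exact h.2
      rw [h1] at ih
      have h2 := step hE hd (v := v) (Z := Set.univ \ ((insert v W : Finset V) : Set V))
        (by simp) ih (Set.toFinite E').toFinset (by rw [Set.Finite.coe_toFinset]; exact hE')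
      rw [Set.Finite.coe_toFinset] at h2
      exact h2
  have h := key Finset.univ E (le_refl E)
  have h3 : gens k d ((Set.univ : Set V) \ ((Finset.univ : Finset V) : Set V)) E =
      edgePoly k (d + 1) '' E := by
    unfold gens
    simp
  rw [h3] at h
  exact h

end lift

/-- The ideal `I` of `R` is a complete intersection: it is generated by a regular sequence. -/
def IsCompleteIntersection {R : Type*} [CommRing R] (I : Ideal R) : Prop :=
  ∃ rs : List R, RingTheory.Sequence.IsRegular R rs ∧ Ideal.ofList rs = I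

section ci

variable [Finite V] {E : Set (Finset V)}

lemma edgePoly_notMem_lss (hE : IsClutter E) (hd : 1 ≤ d) {A : Finset V} (hA : A ∈ E)
    {W : Set (Finset V)} (hW : W ⊆ E) (hAW : A ∉ W) : edgePoly k d A ∉ lss k d W := by
  classical
  set j₀ : Fin d := ⟨0, hd⟩
  set p : V × Fin d → k := fun x => if x.2 = j₀ ∧ x.1 ∈ A then 1 else 0 with hp
  have hev : ∀ B : Finset V, B.Nonempty → eval p (edgePoly k d B) =
      if B ⊆ A then 1 else 0 := by
    intro B hB
    unfold edgePoly
    rw [map_sum, Finset.sum_eq_single j₀]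
    · rw [map_prod]
      split_ifs with hBA
      · refine Finset.prod_eq_one fun i hi => ?_
        rw [eval_X, hp]
        simp [hBA hi]
      · obtain ⟨i, hi, hi'⟩ := Finset.not_subset.1 hBA
        refine Finset.prod_eq_zero hi ?_
        rw [eval_X, hp]
        simp [hi']
    · intro j _ hj
      obtain ⟨b, hb⟩ := hB
      rw [map_prod]
      refine Finset.prod_eq_zero hb ?_
      rw [eval_X, hp]
      simp [hj]
    · intro h
      exact absurd (Finset.mem_univ _) h
  have hker : lss k d W ≤ RingHom.ker (eval p) := by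
    apply lss_le_ker
    intro B hB
    rw [hev B (hE.1 B (hW hB)), if_neg]
    intro hBA
    exact hAW ((hE.2 B (hW hB) A hA hBA) ▸ hB)
  intro hmem
  have h1 := hker hmem
  rw [RingHom.mem_ker, hev A (hE.1 A hA), if_pos (Finset.Subset.refl A)] at h1
  exact one_ne_zero h1

/-- A prime `L_H(d)` is a complete intersection. -/
theorem ci_of_prime (hE : IsClutter E) (hd : 1 ≤ d) (hP : (lss k d E).IsPrime) :
    IsCompleteIntersection (lss k d E) := by
  classical
  have key : ∀ l : List (Finset V), l.Nodup → (∀ A ∈ l, A ∈ E) →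
      RingTheory.Sequence.IsWeaklyRegular (MvPolynomial (V × Fin d) k) (l.map (edgePoly k d)) := by
    intro l
    induction l using List.reverseRecOn with
    | nil =>
      intro _ _
      exact RingTheory.Sequence.IsWeaklyRegular.nil _ _
    | append_singleton l A ih =>
      intro hnd hl
      rw [List.map_append, RingTheory.Sequence.isWeaklyRegular_append_iff]
      have hnd' := List.nodup_append.1 hnd
      refine ⟨ih hnd'.1 (fun B hB => hl B (List.mem_append_left _ hB)), ?_⟩
      rw [List.map_singleton, RingTheory.Sequence.isWeaklyRegular_singleton_iff]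
      have hof : Ideal.ofList (l.map (edgePoly k d)) = lss k d {B | B ∈ l} := by
        unfold lss Ideal.ofList
        congr 1
        ext x
        simp
      have hsub : {B | B ∈ l} ⊆ E := fun B hB => hl B (List.mem_append_left _ hB)
      have hpr := prime_subset hE hd hP hsub
      have hnot : edgePoly k d A ∉ lss k d {B | B ∈ l} :=
        edgePoly_notMem_lss hE hd (hl A (by simp)) hsub (by
          intro hA
          exact hnd'.2.2 A hA A (by simp) rfl)
      rw [isSMulRegular_iff_right_eq_zero_of_smul]
      intro x hx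
      obtain ⟨y, rfl⟩ := Submodule.Quotient.mk_surjective _ x
      rw [← Submodule.Quotient.mk_smul, Submodule.Quotient.mk_eq_zero] at hx
      rw [Submodule.Quotient.mk_eq_zero]
      rw [smul_eq_mul, Ideal.mul_top, hof] at hx ⊢
      exact (hpr.mem_or_mem hx).resolve_left hnot
  have hfin := Set.toFinite E
  refine ⟨(hfin.toFinset.toList).map (edgePoly k d), ⟨key _ (Finset.nodup_toList _) (by simp), ?_⟩, ?_⟩
  · have hof : Ideal.ofList ((hfin.toFinset.toList).map (edgePoly k d)) = lss k d E := by
      unfold lss Ideal.ofList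
      congr 1
      ext x
      simp
    rw [hof, smul_eq_mul, Ideal.mul_top]
    exact fun h => hP.ne_top h.symm
  · unfold lss Ideal.ofList
    congr 1
    ext x
    simp

end ci

/-- Q2: for a clutter `E` of nonempty subsets of a finite set `V`, `d ≥ 1` and a field `k`, if
`L_H(d)` is prime, then `L_H(d+1)` is prime; moreover a prime `L_H(d)` is a complete intersection. -/
theorem result (k : Type*) [Field k] (V : Type*) [Finite V] [DecidableEq V]
    (E : Set (Finset V)) (hE : IsClutter E) (d : ℕ) (hd : 1 ≤ d) (hP : (lss k d E).IsPrime) :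
    (lss k (d + 1) E).IsPrime ∧ IsCompleteIntersection (lss k d E) :=
  ⟨prime_succ hE hd hP, ci_of_prime hE hd hP⟩

end Pool.Agent.Results.MP_3122b6_ag.PrimePersistence
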